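import Mathlib

/-! A subadditive function on an abelian group that vanishes at 0 has an additive minorant. -/

set_option autoImplicit false

namespace Pool.Agent.TH861.HB

variable {G : Type*} [AddCommGroup G]

/-- superadditive functions above `b` -/
def Sup (b : G → ℝ) : Set (G → ℝ) :=
  {f | (∀ g h, f g + f h ≤ f (g + h)) ∧ ∀ g, b g ≤ f g}

theorem Sup.zero {b : G → ℝ} (hb : b 0 = 0) {f : G → ℝ} (hf : f ∈ Sup b) : f 0 = 0 := by
  have h1 := hf.1 0 0
  rw [add_zero] at h1
  have h2 := hf.2 0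
  linarith

theorem Sup.le {b : G → ℝ} (hb : b 0 = 0) {f : G → ℝ} (hf : f ∈ Sup b) (g : G) :
    f g ≤ - b (-g) := by
  have h1 := hf.1 g (-g)
  rw [add_neg_cancel, Sup.zero hb hf] at h1
  have h2 := hf.2 (-g)
  linarith

theorem Sup.le' {b : G → ℝ} (hb : b 0 = 0) {f : G → ℝ} (hf : f ∈ Sup b) (g : G) :
    f g ≤ - f (-g) := by
  have h1 := hf.1 g (-g)
  rw [add_neg_cancel, Sup.zero hb hf] at h1
  linarith

theorem exists_max (b : G → ℝ) (hb : b 0 = 0) (hs : ∀ g h, b g + b h ≤ b (g + h)) :
    ∃ f, Maximal (· ∈ Sup b) f := by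
  have hbS : b ∈ Sup b := ⟨hs, fun _ => le_rfl⟩
  refine (zorn_le_nonempty₀ (Sup b) ?_ b hbS).imp fun m h => h.2
  · intro c hc hchain y hy
    have hbdd : ∀ g, BddAbove ((fun f : G → ℝ => f g) '' c) := by
      intro g
      refine ⟨- b (-g), ?_⟩
      rintro _ ⟨f, hf, rfl⟩
      exact Sup.le hb (hc hf) g
    have hne : ∀ g, ((fun f : G → ℝ => f g) '' c).Nonempty := fun g => ⟨y g, y, hy, rfl⟩
    refine ⟨fun g => sSup ((fun f : G → ℝ => f g) '' c), ⟨?_, ?_⟩, ?_⟩
    · intro g h
      have key : ∀ f₁ ∈ c, ∀ f₂ ∈ c, f₁ g + f₂ h ≤ sSup ((fun f : G → ℝ => f (g + h)) '' c) := by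
        intro f₁ h₁ f₂ h₂
        rcases hchain.total h₁ h₂ with h12 | h12
        · have := (hc h₂).1 g h
          have h3 := h12 g
          have h4 : f₂ (g + h) ≤ sSup ((fun f : G → ℝ => f (g + h)) '' c) :=
            le_csSup (hbdd _) ⟨f₂, h₂, rfl⟩
          linarith
        · have := (hc h₁).1 g h
          have h3 := h12 h
          have h4 : f₁ (g + h) ≤ sSup ((fun f : G → ℝ => f (g + h)) '' c) :=
            le_csSup (hbdd _) ⟨f₁, h₁, rfl⟩
          linarith
      have h5 : sSup ((fun f : G → ℝ => f g) '' c) ≤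
          sSup ((fun f : G → ℝ => f (g + h)) '' c) - sSup ((fun f : G → ℝ => f h) '' c) := by
        refine csSup_le (hne g) ?_
        rintro _ ⟨f₁, h₁, rfl⟩
        have h6 : sSup ((fun f : G → ℝ => f h) '' c) ≤
            sSup ((fun f : G → ℝ => f (g + h)) '' c) - f₁ g := by
          refine csSup_le (hne h) ?_
          rintro _ ⟨f₂, h₂, rfl⟩
          have := key f₁ h₁ f₂ h₂
          simp only
          linarith
        simp only
        linarith
      simp only
      linarith
    · intro g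
      exact ((hc hy).2 g).trans (le_csSup (hbdd g) ⟨y, hy, rfl⟩)
    · intro z hz g
      exact le_csSup (hbdd g) ⟨z, hz, rfl⟩

theorem smul_le {b : G → ℝ} (hb : b 0 = 0) {f : G → ℝ} (hf : f ∈ Sup b) (g : G) (n : ℕ) :
    (n : ℝ) * f g ≤ f (n • g) := by
  induction n with
  | zero => simp [Sup.zero hb hf]
  | succ n ih =>
    have h1 := hf.1 (n • g) g
    rw [succ_nsmul]
    push_cast
    linarith

/-- a maximal superadditive function is homogeneous -/
theorem max_smul {b : G → ℝ} (hb : b 0 = 0) {f : G → ℝ} (hf : Maximal (· ∈ Sup b) f) (g : G)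
    (n : ℕ) : f (n • g) = (n : ℝ) * f g := by
  have hfS : f ∈ Sup b := hf.prop
  have hbdd : ∀ g, BddAbove (Set.range fun n : ℕ => f ((n + 1) • g) / ((n : ℝ) + 1)) := by
    intro g
    refine ⟨- f (-g), ?_⟩
    rintro _ ⟨n, rfl⟩
    have hn : (0 : ℝ) < (n : ℝ) + 1 := by positivity
    simp only
    rw [div_le_iff₀ hn]
    have h1 := Sup.le' hb hfS ((n + 1) • g)
    have h2 := smul_le hb hfS (-g) (n + 1)
    rw [smul_neg] at h2
    push_cast at h2
    linarith
  have hF : (fun g => ⨆ n : ℕ, f ((n + 1) • g) / ((n : ℝ) + 1)) ∈ Sup b := by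
    constructor
    · intro g h
      simp only
      have key : ∀ m n : ℕ, f ((m + 1) • g) / ((m : ℝ) + 1) + f ((n + 1) • h) / ((n : ℝ) + 1) ≤
          ⨆ n : ℕ, f ((n + 1) • (g + h)) / ((n : ℝ) + 1) := by
        intro m n
        have hm : (0 : ℝ) < (m : ℝ) + 1 := by positivity
        have hn : (0 : ℝ) < (n : ℝ) + 1 := by positivity
        have hk := le_ciSup (hbdd (g + h)) (m * n + m + n)
        refine le_trans ?_ hk
        have e1 : m * n + m + n + 1 = (n + 1) * (m + 1) := by ring
        have e1' : m * n + m + n + 1 = (m + 1) * (n + 1) := by ring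
        have e2 : ((m * n + m + n : ℕ) : ℝ) + 1 = ((m : ℝ) + 1) * ((n : ℝ) + 1) := by
          push_cast; ring
        have h1 := hfS.1 ((m * n + m + n + 1) • g) ((m * n + m + n + 1) • h)
        rw [← smul_add] at h1
        have h2 := smul_le hb hfS ((m + 1) • g) (n + 1)
        have h3 := smul_le hb hfS ((n + 1) • h) (m + 1)
        rw [← mul_smul, ← e1] at h2
        rw [← mul_smul, ← e1'] at h3
        rw [e2, le_div_iff₀ (by positivity)]
        push_cast at h2 h3
        have e3 : (f ((m + 1) • g) / ((m : ℝ) + 1) + f ((n + 1) • h) / ((n : ℝ) + 1)) *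
            (((m : ℝ) + 1) * ((n : ℝ) + 1)) =
            ((n : ℝ) + 1) * f ((m + 1) • g) + ((m : ℝ) + 1) * f ((n + 1) • h) := by
          field_simp
        rw [e3]
        linarith
      have h5 : (⨆ n : ℕ, f ((n + 1) • g) / ((n : ℝ) + 1)) ≤
          (⨆ n : ℕ, f ((n + 1) • (g + h)) / ((n : ℝ) + 1)) -
          (⨆ n : ℕ, f ((n + 1) • h) / ((n : ℝ) + 1)) := by
        refine ciSup_le fun m => ?_
        have h6 : (⨆ n : ℕ, f ((n + 1) • h) / ((n : ℝ) + 1)) ≤
            (⨆ n : ℕ, f ((n + 1) • (g + h)) / ((n : ℝ) + 1)) -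
            f ((m + 1) • g) / ((m : ℝ) + 1) := by
          refine ciSup_le fun n => ?_
          have := key m n
          linarith
        linarith
      linarith
    · intro g
      refine (hfS.2 g).trans ?_
      have := le_ciSup (hbdd g) 0
      simpa using this
  have hle : f ≤ fun g => ⨆ n : ℕ, f ((n + 1) • g) / ((n : ℝ) + 1) := by
    intro g
    have := le_ciSup (hbdd g) 0
    simpa using this
  have hge := hf.le_of_ge hF hle
  rcases n with _ | n
  · simp [Sup.zero hb hfS]
  · refine le_antisymm ?_ (smul_le hb hfS g (n + 1))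
    have h1 := le_ciSup (hbdd g) n
    have h2 := hge g
    have hn : (0 : ℝ) < (n : ℝ) + 1 := by positivity
    have h3 : f ((n + 1) • g) / ((n : ℝ) + 1) ≤ f g := h1.trans h2
    rw [div_le_iff₀ hn] at h3
    push_cast
    linarith

theorem max_add {b : G → ℝ} (hb : b 0 = 0) {f : G → ℝ} (hf : Maximal (· ∈ Sup b) f) (g x : G) :
    f (g + x) = f g + f x := by
  have hfS : f ∈ Sup b := hf.prop
  have hbdd : ∀ g, BddAbove (Set.range fun n : ℕ => f (g + n • x) - (n : ℝ) * f x) := by
    intro g
    refine ⟨- f (-g), ?_⟩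
    rintro _ ⟨n, rfl⟩
    have h1 := hfS.1 (g + n • x) (-g)
    have e : g + n • x + -g = n • x := by abel
    rw [e, max_smul hb hf] at h1
    simp only
    linarith
  have hF : (fun g => ⨆ n : ℕ, (f (g + n • x) - (n : ℝ) * f x)) ∈ Sup b := by
    constructor
    · intro g h
      simp only
      have key : ∀ m n : ℕ, (f (g + m • x) - (m : ℝ) * f x) + (f (h + n • x) - (n : ℝ) * f x) ≤
          ⨆ n : ℕ, (f (g + h + n • x) - (n : ℝ) * f x) := by
        intro m n
        refine le_trans ?_ (le_ciSup (hbdd (g + h)) (m + n))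
        have h1 := hfS.1 (g + m • x) (h + n • x)
        have e : g + m • x + (h + n • x) = g + h + (m + n) • x := by rw [add_smul]; abel
        rw [e] at h1
        push_cast
        linarith
      have h5 : (⨆ n : ℕ, (f (g + n • x) - (n : ℝ) * f x)) ≤
          (⨆ n : ℕ, (f (g + h + n • x) - (n : ℝ) * f x)) -
          (⨆ n : ℕ, (f (h + n • x) - (n : ℝ) * f x)) := by
        refine ciSup_le fun m => ?_
        have h6 : (⨆ n : ℕ, (f (h + n • x) - (n : ℝ) * f x)) ≤
            (⨆ n : ℕ, (f (g + h + n • x) - (n : ℝ) * f x)) -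
            (f (g + m • x) - (m : ℝ) * f x) := by
          refine ciSup_le fun n => ?_
          have := key m n
          linarith
        linarith
      linarith
    · intro g
      refine (hfS.2 g).trans ?_
      have := le_ciSup (hbdd g) 0
      simpa using this
  have hle : f ≤ fun g => ⨆ n : ℕ, (f (g + n • x) - (n : ℝ) * f x) := by
    intro g
    have := le_ciSup (hbdd g) 0
    simpa using this
  have hge := hf.le_of_ge hF hle
  refine le_antisymm ?_ (hfS.1 g x)
  have h1 := le_ciSup (hbdd g) 1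
  have h2 := hge g
  simp only [one_smul, Nat.cast_one, one_mul] at h1
  have h3 : f (g + x) - f x ≤ f g := h1.trans h2
  linarith

/-- **Additive minorant.** -/
theorem exists_additive_minorant (p : G → ℝ) (h0 : p 0 = 0)
    (hp : ∀ g h, p (g + h) ≤ p g + p h) : ∃ φ : G →+ ℝ, ∀ g, φ g ≤ p g := by
  obtain ⟨f, hf⟩ := exists_max (fun g => - p g) (by simp [h0])
    (fun g h => by have := hp g h; linarith)
  have hb : (fun g => - p g) (0 : G) = 0 := by simp [h0]
  refine ⟨-(AddMonoidHom.mk' f (max_add hb hf)), fun g => ?_⟩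
  have := hf.prop.2 g
  simp only [AddMonoidHom.neg_apply, AddMonoidHom.mk'_apply]
  linarith

end Pool.Agent.TH861.HB
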