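import Mathlib
import Pool.Agent.TH861.HB.Base

/-! Arithmetic Kakeya: the maximum form is equivalent to a product form with fixed weights. -/

set_option autoImplicit false

namespace Pool.Agent.TH861.HB

/-- x + r y for the slope r, and y for the slope ∞ = none -/
def slopeVal : Option ℚ → ℤ × ℤ → ℚ
  | none, p => p.2
  | some r, p => p.1 + r * p.2

/-- the projection of A in direction r -/
def proj (r : Option ℚ) (A : Finset (ℤ × ℤ)) : Finset ℚ := A.image (slopeVal r)

theorem proj_nonempty (r : Option ℚ) {A : Finset (ℤ × ℤ)} (hA : A.Nonempty) :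
    (proj r A).Nonempty := hA.image _

theorem exists_prod (T : Finset (Option ℚ)) (A B : Finset (ℤ × ℤ)) (hA : A.Nonempty)
    (hB : B.Nonempty) : ∃ C : Finset (ℤ × ℤ), C.Nonempty ∧
      ∀ r ∈ T, (proj r C).card = (proj r A).card * (proj r B).card := by
  classical
  let bad : Finset ℚ := T.biUnion fun r =>
    ((proj r A ×ˢ proj r A) ×ˢ (proj r B ×ˢ proj r B)).image
      fun q => (q.1.2 - q.1.1) / (q.2.1 - q.2.2)
  obtain ⟨_, ⟨N, rfl⟩, hN⟩ :=
    (Set.infinite_range_of_injective (Nat.cast_injective (R := ℚ))).exists_notMem_finset bad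
  refine ⟨(A ×ˢ B).image fun p => (p.1.1 + (N : ℤ) * p.2.1, p.1.2 + (N : ℤ) * p.2.2),
    (hA.product hB).image _, fun r hr => ?_⟩
  have h1 : proj r ((A ×ˢ B).image fun p => (p.1.1 + (N : ℤ) * p.2.1, p.1.2 + (N : ℤ) * p.2.2)) =
      (proj r A ×ˢ proj r B).image fun w : ℚ × ℚ => w.1 + (N : ℚ) * w.2 := by
    unfold proj
    rw [← Finset.prodMap_image_product, Finset.image_image, Finset.image_image]
    congr 1
    funext p
    cases r with
    | none => simp [slopeVal]
    | some r => simp [slopeVal]; ring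
  rw [h1, Finset.card_image_of_injOn, Finset.card_product]
  rintro ⟨u, v⟩ hw ⟨u', v'⟩ hw' h
  simp only [Finset.coe_product, Set.mem_prod, Finset.mem_coe] at hw hw' h
  by_cases hv : v = v'
  · subst hv
    simp only [add_left_inj] at h
    rw [h]
  · exfalso
    apply hN
    refine Finset.mem_biUnion.2 ⟨r, hr, Finset.mem_image.2 ⟨((u, u'), (v, v')), ?_, ?_⟩⟩
    · simp [hw.1, hw.2, hw'.1, hw'.2]
    · have h2 : v - v' ≠ 0 := sub_ne_zero.2 hv
      simp only
      rw [div_eq_iff h2]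
      linarith

/-- a nonnegative additive function on ℝ is linear -/
theorem linear_of_nonneg (f : ℝ →+ ℝ) (hf : ∀ t, 0 ≤ t → 0 ≤ f t) (t : ℝ) : f t = t * f 1 := by
  have hmono : ∀ s t, s ≤ t → f s ≤ f t := by
    intro s t hst
    have h1 := hf (t - s) (sub_nonneg.2 hst)
    rw [map_sub] at h1
    linarith
  have hq : ∀ q : ℚ, f q = q * f 1 := by
    intro q
    have := map_rat_smul f q (1 : ℝ)
    rw [Rat.smul_def, Rat.smul_def, mul_one] at this
    exact this
  have h1 := hf 1 zero_le_one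
  refine le_antisymm ?_ ?_
  · refine le_of_forall_pos_le_add fun ε hε => ?_
    obtain ⟨q, hq1, hq2⟩ := exists_rat_btwn (show t < t + ε / (f 1 + 1) by
      have : 0 < ε / (f 1 + 1) := by positivity
      linarith)
    have h2 := hmono _ _ hq1.le
    rw [hq] at h2
    have h3 : (q : ℝ) * f 1 ≤ (t + ε / (f 1 + 1)) * f 1 := mul_le_mul_of_nonneg_right hq2.le h1
    have h4 : ε / (f 1 + 1) * f 1 ≤ ε := by
      rw [div_mul_eq_mul_div, div_le_iff₀ (by positivity)]
      nlinarith
    nlinarith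
  · refine le_of_forall_pos_le_add fun ε hε => ?_
    obtain ⟨q, hq1, hq2⟩ := exists_rat_btwn (show t - ε / (f 1 + 1) < t by
      have : 0 < ε / (f 1 + 1) := by positivity
      linarith)
    have h2 := hmono _ _ hq2.le
    rw [hq] at h2
    have h3 : (t - ε / (f 1 + 1)) * f 1 ≤ (q : ℝ) * f 1 := mul_le_mul_of_nonneg_right hq1.le h1
    have h4 : ε / (f 1 + 1) * f 1 ≤ ε := by
      rw [div_mul_eq_mul_div, div_le_iff₀ (by positivity)]
      nlinarith
    nlinarith

/-- log of the size of a projection -/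
noncomputable def L (r : Option ℚ) (A : Finset (ℤ × ℤ)) : ℝ := Real.log (proj r A).card

theorem L_nonneg (r : Option ℚ) (A : Finset (ℤ × ℤ)) : 0 ≤ L r A := Real.log_natCast_nonneg _

theorem exists_prod_L (T : Finset (Option ℚ)) (A B : Finset (ℤ × ℤ)) (hA : A.Nonempty)
    (hB : B.Nonempty) : ∃ C : Finset (ℤ × ℤ), C.Nonempty ∧ ∀ r ∈ T, L r C = L r A + L r B := by
  obtain ⟨C, hC, h⟩ := exists_prod T A B hA hB
  refine ⟨C, hC, fun r hr => ?_⟩
  unfold L
  rw [h r hr]
  push_cast
  refine Real.log_mul ?_ ?_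
  · exact_mod_cast (Finset.card_pos.2 (proj_nonempty r hA)).ne'
  · exact_mod_cast (Finset.card_pos.2 (proj_nonempty r hB)).ne'

/-- the cost function of the duality -/
def kvals (S : Finset (Option ℚ)) (α : ℝ) (g : S → ℝ) : Set ℝ :=
  {x | ∃ P : Finset (ℤ × ℤ), P.Nonempty ∧ ∃ t : ℝ, 0 ≤ t ∧ (∀ r : S, g r + L r P ≤ t) ∧
    x = α * t - L (some (-1)) P}

theorem L_one (r : Option ℚ) : L r {((0 : ℤ), (0 : ℤ))} = 0 := by
  simp [L, proj]

theorem kvals_nonempty (S : Finset (Option ℚ)) (α : ℝ) (g : S → ℝ) : (kvals S α g).Nonempty := by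
  refine ⟨_, {((0 : ℤ), (0 : ℤ))}, by simp, ∑ r, |g r|, Finset.sum_nonneg fun _ _ => abs_nonneg _,
    fun r => ?_, rfl⟩
  rw [L_one, add_zero]
  exact (le_abs_self _).trans
    (Finset.single_le_sum (f := fun r => |g r|) (fun _ _ => abs_nonneg _) (Finset.mem_univ r))

theorem kvals_add {S : Finset (Option ℚ)} {α : ℝ} {g h : S → ℝ} {x y : ℝ}
    (hx : x ∈ kvals S α g) (hy : y ∈ kvals S α h) : x + y ∈ kvals S α (g + h) := by
  classical
  obtain ⟨P, hP, t, ht, h1, rfl⟩ := hx
  obtain ⟨Q, hQ, s, hs, h2, rfl⟩ := hy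
  obtain ⟨C, hC, h3⟩ := exists_prod_L (insert (some (-1)) S) P Q hP hQ
  refine ⟨C, hC, t + s, by positivity, fun r => ?_, ?_⟩
  · rw [h3 r (Finset.mem_insert_of_mem r.2), Pi.add_apply]
    linarith [h1 r, h2 r]
  · rw [h3 _ (Finset.mem_insert_self _ _)]
    ring

/-- **Duality.** -/
theorem exists_weights (S : Finset (Option ℚ)) (α : ℝ) (hα : 0 ≤ α)
    (h : ∀ A : Finset (ℤ × ℤ), A.Nonempty → ∃ r ∈ S, L (some (-1)) A ≤ α * L r A) :
    ∃ w : Option ℚ → ℝ, (∀ r ∈ S, 0 ≤ w r) ∧ ∑ r ∈ S, w r ≤ α ∧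
      ∀ A : Finset (ℤ × ℤ), A.Nonempty → L (some (-1)) A ≤ ∑ r ∈ S, w r * L r A := by
  classical
  have hzero : ∀ x ∈ kvals S α 0, 0 ≤ x := by
    rintro x ⟨P, hP, t, ht, h1, rfl⟩
    obtain ⟨r, hr, h2⟩ := h P hP
    have h3 := h1 ⟨r, hr⟩
    simp only [Pi.zero_apply, zero_add] at h3
    have := mul_le_mul_of_nonneg_left h3 hα
    linarith
  have hbdd : ∀ g, BddBelow (kvals S α g) := by
    intro g
    obtain ⟨y, hy⟩ := kvals_nonempty S α (-g)
    refine ⟨-y, fun x hx => ?_⟩
    have := kvals_add hx hy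
    rw [add_neg_cancel] at this
    have := hzero _ this
    linarith
  have hz : sInf (kvals S α 0) = 0 := by
    refine le_antisymm ?_ (le_csInf (kvals_nonempty S α 0) hzero)
    refine csInf_le (hbdd 0) ⟨{((0 : ℤ), (0 : ℤ))}, by simp, 0, le_rfl, fun r => ?_, ?_⟩
    · simp [L_one]
    · simp [L_one]
  have hs : ∀ g h, sInf (kvals S α (g + h)) ≤ sInf (kvals S α g) + sInf (kvals S α h) := by
    intro g h
    have h5 : sInf (kvals S α (g + h)) - sInf (kvals S α h) ≤ sInf (kvals S α g) := by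
      refine le_csInf (kvals_nonempty S α g) fun x hx => ?_
      have h6 : sInf (kvals S α (g + h)) - x ≤ sInf (kvals S α h) := by
        refine le_csInf (kvals_nonempty S α h) fun y hy => ?_
        have := csInf_le (hbdd (g + h)) (kvals_add hx hy)
        linarith
      linarith
    linarith
  obtain ⟨φ, hφ⟩ := exists_additive_minorant (fun g => sInf (kvals S α g)) hz hs
  have hneg : ∀ g : S → ℝ, (∀ r, g r ≤ 0) → φ g ≤ 0 := by
    intro g hg
    refine (hφ g).trans (csInf_le (hbdd g) ⟨{((0 : ℤ), (0 : ℤ))}, by simp, 0, le_rfl, fun r => ?_, ?_⟩)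
    · simpa [L_one] using hg r
    · simp [L_one]
  have hpos : ∀ g : S → ℝ, (∀ r, 0 ≤ g r) → 0 ≤ φ g := by
    intro g hg
    have := hneg (-g) (fun r => by simpa using hg r)
    rw [map_neg] at this
    linarith
  let F : S → ℝ →+ ℝ := fun r => φ.comp (AddMonoidHom.single (fun _ : S => ℝ) r)
  have hF : ∀ r t, F r t = t * F r 1 := by
    intro r t
    refine linear_of_nonneg (F r) (fun t ht => hpos _ fun s => ?_) t
    simp only [AddMonoidHom.single_apply]
    by_cases hsr : s = r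
    · subst hsr; simpa using ht
    · simp [Pi.single_eq_of_ne hsr]
  have hsum : ∀ g : S → ℝ, φ g = ∑ r, g r * F r 1 := by
    intro g
    have : g = ∑ r, Pi.single r (g r) := (Finset.univ_sum_single g).symm
    conv_lhs => rw [this]
    rw [map_sum]
    refine Finset.sum_congr rfl fun r _ => ?_
    rw [← hF r (g r)]
    rfl
  refine ⟨fun r => if hr : r ∈ S then F ⟨r, hr⟩ 1 else 0, fun r hr => ?_, ?_, fun A hA => ?_⟩
  · simp only [hr, dite_true]
    refine hpos _ fun s => ?_
    simp only [AddMonoidHom.single_apply]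
    by_cases hsr : s = ⟨r, hr⟩
    · subst hsr; simp
    · simp [Pi.single_eq_of_ne hsr]
  · rw [← Finset.sum_coe_sort]
    have h1 : φ (fun _ => 1) ≤ α := by
      refine (hφ _).trans (csInf_le (hbdd _)
        ⟨{((0 : ℤ), (0 : ℤ))}, by simp, 1, zero_le_one, fun r => ?_, ?_⟩)
      · simp [L_one]
      · simp [L_one]
    rw [hsum] at h1
    simpa using h1
  · rw [← Finset.sum_coe_sort]
    have h1 : φ (fun r : S => - L r A) ≤ - L (some (-1)) A := by
      refine (hφ _).trans (csInf_le (hbdd _) ⟨A, hA, 0, le_rfl, fun r => ?_, ?_⟩)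
      · simp
      · ring
    rw [hsum] at h1
    have h2 : ∑ r : S, (- L r A) * F r 1 = - ∑ r : S, F r 1 * L r A := by
      rw [← Finset.sum_neg_distrib]
      exact Finset.sum_congr rfl fun r _ => by ring
    rw [h2] at h1
    have h3 : ∑ r : S, (if hr : (r : Option ℚ) ∈ S then F ⟨r, hr⟩ 1 else 0) * L r A =
        ∑ r : S, F r 1 * L r A := by
      refine Finset.sum_congr rfl fun r _ => ?_
      simp
    simp only at h3 ⊢
    rw [h3]
    linarith

end Pool.Agent.TH861.HB
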