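import Mathlib
import Pool.Agent.TH861.HB.Kakeya

set_option autoImplicit false

namespace Pool.Agent.TH861.HB

/-- a vector in the kernel of the slope r -/
def ker : Option ℚ → ℤ × ℤ
  | none => (1, 0)
  | some q => (-q.num, q.den)

theorem slope_ker (r : Option ℚ) : slopeVal r (ker r) = 0 := by
  cases r with
  | none => simp [slopeVal, ker]
  | some q => simp [slopeVal, ker, Rat.mul_den_eq_num]

theorem slope_ker_ne {r s : Option ℚ} (h : s ≠ r) : slopeVal s (ker r) ≠ 0 := by
  cases r with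
  | none =>
    cases s with
    | none => exact absurd rfl h
    | some q => simp [slopeVal, ker]
  | some q =>
    have hd : (q.den : ℚ) ≠ 0 := by exact_mod_cast q.den_nz
    cases s with
    | none => simpa [slopeVal, ker] using hd
    | some q' =>
      have hne : q' - q ≠ 0 := sub_ne_zero.2 fun e => h (by rw [e])
      have e : slopeVal (some q') (ker (some q)) = (q' - q) * q.den := by
        simp only [slopeVal, ker]
        push_cast
        rw [sub_mul, Rat.mul_den_eq_num]
        ring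
      rw [e]
      exact mul_ne_zero hne hd

theorem slope_zero (r : Option ℚ) : slopeVal r (0, 0) = 0 := by
  cases r <;> simp [slopeVal]

/-- the two-point test set -/
def two (r : Option ℚ) : Finset (ℤ × ℤ) := {(0, 0), ker r}

theorem two_nonempty (r : Option ℚ) : (two r).Nonempty := ⟨_, Finset.mem_insert_self _ _⟩

theorem proj_two (r s : Option ℚ) : proj s (two r) = {0, slopeVal s (ker r)} := by
  simp [proj, two, Finset.image_insert, slope_zero]

theorem L_two_self (r : Option ℚ) : L r (two r) = 0 := by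
  simp [L, proj_two, slope_ker]

theorem L_two_ne {r s : Option ℚ} (h : s ≠ r) : L s (two r) = Real.log 2 := by
  rw [L, proj_two, Finset.card_pair (slope_ker_ne h).symm]
  norm_num

theorem L_two_le (r s : Option ℚ) : L s (two r) ≤ Real.log 2 := by
  by_cases h : s = r
  · subst h
    rw [L_two_self]
    exact Real.log_nonneg (by norm_num)
  · rw [L_two_ne h]

theorem card_pos (r : Option ℚ) {A : Finset (ℤ × ℤ)} (hA : A.Nonempty) :
    (0 : ℝ) < (proj r A).card := by
  exact_mod_cast Finset.card_pos.2 (proj_nonempty r hA)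

theorem max_iff (α : ℝ) (r : Option ℚ) {A : Finset (ℤ × ℤ)} (hA : A.Nonempty) :
    ((proj (some (-1)) A).card : ℝ) ≤ ((proj r A).card : ℝ) ^ α ↔
      L (some (-1)) A ≤ α * L r A :=
  Real.le_rpow_iff_log_le (card_pos _ hA) (card_pos _ hA)

theorem prod_iff (S : Finset (Option ℚ)) (w : Option ℚ → ℝ) {A : Finset (ℤ × ℤ)}
    (hA : A.Nonempty) :
    ((proj (some (-1)) A).card : ℝ) ≤ ∏ r ∈ S, ((proj r A).card : ℝ) ^ w r ↔
      L (some (-1)) A ≤ ∑ r ∈ S, w r * L r A := by
  have h1 : ∏ r ∈ S, ((proj r A).card : ℝ) ^ w r = Real.exp (∑ r ∈ S, w r * L r A) := by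
    rw [Real.exp_sum]
    refine Finset.prod_congr rfl fun r _ => ?_
    rw [Real.rpow_def_of_pos (card_pos r hA), mul_comm]
    rfl
  rw [h1, ← Real.log_le_iff_le_exp (card_pos _ hA)]
  rfl

theorem kakeya_duality (S : Finset (Option ℚ)) (hS : some (-1) ∉ S) (α : ℝ) (hα : 0 ≤ α) :
    (∀ A : Finset (ℤ × ℤ), A.Nonempty → ∃ r ∈ S,
      ((proj (some (-1)) A).card : ℝ) ≤ ((proj r A).card : ℝ) ^ α) ↔
    ∃ w : Option ℚ → ℝ, (∀ r ∈ S, 0 ≤ w r ∧ w r ≤ α - 1) ∧ ∑ r ∈ S, w r = α ∧
      ∀ A : Finset (ℤ × ℤ), A.Nonempty →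
        ((proj (some (-1)) A).card : ℝ) ≤ ∏ r ∈ S, ((proj r A).card : ℝ) ^ w r := by
  classical
  have hlog : 0 < Real.log 2 := Real.log_pos (by norm_num)
  constructor
  · intro h
    obtain ⟨w₀, hw0, hsum, hprod⟩ := exists_weights S α hα
      (fun A hA => by
        obtain ⟨r, hr, h1⟩ := h A hA
        exact ⟨r, hr, (max_iff α r hA).1 h1⟩)
    obtain ⟨r₀, hr₀, -⟩ := h {(0, 0)} (by simp)
    set δ : ℝ := α - ∑ r ∈ S, w₀ r with hδ
    have hδ0 : 0 ≤ δ := by rw [hδ]; linarith
    let w : Option ℚ → ℝ := fun r => w₀ r + if r = r₀ then δ else 0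
    have hw1 : ∀ r ∈ S, w₀ r ≤ w r := by
      intro r _
      simp only [w]
      split_ifs <;> linarith
    have hwsum : ∑ r ∈ S, w r = α := by
      simp only [w]
      rw [Finset.sum_add_distrib, Finset.sum_ite_eq' S r₀, if_pos hr₀, hδ]
      ring
    have hwprod : ∀ A : Finset (ℤ × ℤ), A.Nonempty →
        L (some (-1)) A ≤ ∑ r ∈ S, w r * L r A := fun A hA =>
      (hprod A hA).trans (Finset.sum_le_sum fun r hr =>
        mul_le_mul_of_nonneg_right (hw1 r hr) (L_nonneg r A))
    refine ⟨w, fun r hr => ⟨(hw0 r hr).trans (hw1 r hr), ?_⟩, hwsum,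
      fun A hA => (prod_iff S w hA).2 (hwprod A hA)⟩
    have h1 := hwprod (two r) (two_nonempty r)
    have hne : (some (-1) : Option ℚ) ≠ r := fun e => hS (e ▸ hr)
    rw [L_two_ne hne, ← Finset.add_sum_erase S _ hr, L_two_self, mul_zero, zero_add] at h1
    have h2 : ∑ s ∈ S.erase r, w s * L s (two r) = (∑ s ∈ S.erase r, w s) * Real.log 2 := by
      rw [Finset.sum_mul]
      refine Finset.sum_congr rfl fun s hs => ?_
      rw [L_two_ne (Finset.ne_of_mem_erase hs)]
    rw [h2] at h1
    have h3 : 1 ≤ ∑ s ∈ S.erase r, w s := by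
      by_contra hlt
      push Not at hlt
      nlinarith
    have h4 := Finset.add_sum_erase S w hr
    linarith
  · rintro ⟨w, hw, hsum, hprod⟩ A hA
    have hprod' : ∀ A : Finset (ℤ × ℤ), A.Nonempty →
        L (some (-1)) A ≤ ∑ r ∈ S, w r * L r A := fun A hA => (prod_iff S w hA).1 (hprod A hA)
    have hα1 : 1 ≤ α := by
      have h1 := hprod' (two none) (two_nonempty none)
      rw [L_two_ne (by simp)] at h1
      have h2 : ∑ r ∈ S, w r * L r (two none) ≤ ∑ r ∈ S, w r * Real.log 2 :=
        Finset.sum_le_sum fun r hr => mul_le_mul_of_nonneg_left (L_two_le _ _) (hw r hr).1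
      rw [← Finset.sum_mul, hsum] at h2
      by_contra hlt
      push Not at hlt
      nlinarith
    by_contra hcon
    push Not at hcon
    have hcon' : ∀ r ∈ S, α * L r A < L (some (-1)) A := by
      intro r hr
      by_contra hle
      push Not at hle
      exact absurd ((max_iff α r hA).2 hle) (not_le.2 (hcon r hr))
    have hex : ∃ r ∈ S, 0 < w r := by
      by_contra hno
      push Not at hno
      have : ∑ r ∈ S, w r ≤ 0 := Finset.sum_nonpos hno
      linarith
    obtain ⟨r₁, hr₁, hw₁⟩ := hex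
    have h5 : ∑ r ∈ S, w r * (α * L r A) < ∑ r ∈ S, w r * L (some (-1)) A :=
      Finset.sum_lt_sum (fun r hr => mul_le_mul_of_nonneg_left (hcon' r hr).le (hw r hr).1)
        ⟨r₁, hr₁, mul_lt_mul_of_pos_left (hcon' r₁ hr₁) hw₁⟩
    rw [← Finset.sum_mul, hsum] at h5
    have h6 : ∑ r ∈ S, w r * (α * L r A) = α * ∑ r ∈ S, w r * L r A := by
      rw [Finset.mul_sum]
      exact Finset.sum_congr rfl fun r _ => by ring
    rw [h6] at h5
    have h7 := mul_le_mul_of_nonneg_left (hprod' A hA) hα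
    linarith

end Pool.Agent.TH861.HB
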