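import Mathlib
import Pool.Agent.TH861.HB.Base

/-! Strong symplectic cobordisms between contact 3-manifolds, and additive potentials. -/

set_option autoImplicit false

namespace Pool.Agent.TH861.HB

open Algebra

/-- The part of 4-dimensional symplectic topology that is used. `M` stands for the commutative monoid, under
disjoint union, of the closed contact 3-manifolds (empty and disconnected ones allowed, up to
contactomorphism) each component of which is strongly fillable. `Cob` stands for the compact symplectic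
4-manifolds with strongly concave boundary `concave` and strongly convex boundary `convex`, both in `M`, such
that each component has nonempty convex boundary or b⁺ > 1; `e` is the Euler characteristic and `sig` the
signature. -/
structure SympCobordisms (M : Type*) [AddCancelCommMonoid M] where
  Cob : Type*
  concave : Cob → M
  convex : Cob → M
  e : Cob → ℤ
  sig : Cob → ℤ
  /-- disjoint union -/
  union : ∀ A B, ∃ D, concave D = concave A + concave B ∧ convex D = convex A + convex B ∧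
    e D = e A + e B ∧ sig D = sig A + sig B
  /-- gluing along a common contact boundary -/
  comp : ∀ A B, convex A = concave B → ∃ D, concave D = concave A ∧ convex D = convex B ∧
    e D = e A + e B ∧ sig D = sig A + sig B
  /-- pieces of symplectizations -/
  cyl : ∀ Y, ∃ D, concave D = Y ∧ convex D = Y ∧ e D = 0 ∧ sig D = 0
  /-- strong fillings -/
  fill : ∀ Y, ∃ D, concave D = 0 ∧ convex D = Y
  /-- strong caps, with b⁺ > 1 -/
  cap : ∀ Y, ∃ D, concave D = Y ∧ convex D = 0

namespace SympCobordisms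

variable {M : Type*} [AddCancelCommMonoid M] (S : SympCobordisms M)

/-- e - 3 sig -/
def m (A : S.Cob) : ℤ := S.e A - 3 * S.sig A

theorem iterate (A : S.Cob) (h : S.convex A = S.concave A) (n : ℕ) :
    ∃ D, S.concave D = S.concave A ∧ S.convex D = S.concave A ∧ S.m D = n * S.m A := by
  induction n with
  | zero =>
    obtain ⟨D, h1, h2, h3, h4⟩ := S.cyl (S.concave A)
    exact ⟨D, h1, h2, by simp [m, h3, h4]⟩
  | succ n ih =>
    obtain ⟨D, h1, h2, h3⟩ := ih
    obtain ⟨D', k1, k2, k3, k4⟩ := S.comp D A h2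
    refine ⟨D', k1.trans h1, k2.trans h, ?_⟩
    simp only [m] at h3 ⊢
    rw [k3, k4]
    push_cast
    linarith

theorem endo_nonneg (hQ : ∀ X, S.concave X = 0 → S.convex X = 0 → 3 * S.sig X ≤ S.e X)
    (A : S.Cob) (h : S.convex A = S.concave A) : 0 ≤ S.m A := by
  by_contra hneg
  push Not at hneg
  obtain ⟨F, f1, f2⟩ := S.fill (S.concave A)
  obtain ⟨C, c1, c2⟩ := S.cap (S.concave A)
  obtain ⟨D, d1, d2, d3⟩ := S.iterate A h ((S.m F + S.m C).toNat + 1)
  obtain ⟨X, x1, x2, x3, x4⟩ := S.comp F D (f2.trans d1.symm)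
  obtain ⟨Z, z1, z2, z3, z4⟩ := S.comp X C (x2.trans (d2.trans c1.symm))
  have h1 := hQ Z (z1.trans (x1.trans f1)) (z2.trans c2)
  have h2 : S.m F + S.m C ≤ ((S.m F + S.m C).toNat : ℤ) := Int.self_le_toNat _
  have h3 : S.e Z - 3 * S.sig Z = S.m F + S.m D + S.m C := by
    simp only [m]
    rw [z3, z4, x3, x4]
    ring
  have h4 : ((((S.m F + S.m C).toNat + 1 : ℕ) : ℤ)) * S.m A ≤
      -((((S.m F + S.m C).toNat + 1 : ℕ) : ℤ)) := by
    have h5 : S.m A ≤ -1 := by omega
    have h6 : (0 : ℤ) ≤ (((S.m F + S.m C).toNat + 1 : ℕ) : ℤ) := by positivity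
    nlinarith
  rw [d3] at h3
  push_cast at h3 h4 h2
  linarith

/-- the values of e - 3 sig on the cobordisms with given difference of the ends -/
def vals (g : GrothendieckAddGroup M) : Set ℝ :=
  {x | ∃ A : S.Cob, GrothendieckAddGroup.of (S.convex A) =
    g + GrothendieckAddGroup.of (S.concave A) ∧ x = S.m A}

theorem vals_nonempty (g : GrothendieckAddGroup M) : (S.vals g).Nonempty := by
  induction g using AddLocalization.ind with
  | _ y =>
  obtain ⟨a, b, hb⟩ := y
  obtain ⟨F, f1, f2⟩ := S.fill a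
  obtain ⟨C, c1, c2⟩ := S.cap b
  obtain ⟨D, d1, d2, -, -⟩ := S.union F C
  refine ⟨_, D, ?_, rfl⟩
  rw [d1, d2, f1, f2, c1, c2, add_zero, zero_add]
  have := (AddLocalization.addMonoidOf (⊤ : AddSubmonoid M)).mk'_spec a ⟨b, hb⟩
  rw [← AddLocalization.mk_eq_addMonoidOf_mk'] at this
  exact this.symm

theorem vals_add {g h : GrothendieckAddGroup M} {x y : ℝ} (hx : x ∈ S.vals g)
    (hy : y ∈ S.vals h) : x + y ∈ S.vals (g + h) := by
  obtain ⟨A, hA, rfl⟩ := hx
  obtain ⟨B, hB, rfl⟩ := hy
  obtain ⟨D, d1, d2, d3, d4⟩ := S.union A B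
  refine ⟨D, ?_, ?_⟩
  · rw [d1, d2, map_add, map_add, hA, hB]
    abel
  · simp only [m]
    rw [d3, d4]
    push_cast
    ring

theorem vals_zero (hQ : ∀ X, S.concave X = 0 → S.convex X = 0 → 3 * S.sig X ≤ S.e X) {x : ℝ}
    (hx : x ∈ S.vals 0) : 0 ≤ x := by
  obtain ⟨A, hA, rfl⟩ := hx
  rw [zero_add] at hA
  exact_mod_cast S.endo_nonneg hQ A (GrothendieckAddGroup.of_injective hA)

theorem vals_bdd (hQ : ∀ X, S.concave X = 0 → S.convex X = 0 → 3 * S.sig X ≤ S.e X)
    (g : GrothendieckAddGroup M) : BddBelow (S.vals g) := by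
  obtain ⟨y, hy⟩ := S.vals_nonempty (-g)
  refine ⟨-y, fun x hx => ?_⟩
  have := S.vals_add hx hy
  rw [add_neg_cancel] at this
  have := S.vals_zero hQ this
  linarith

theorem exists_potential
    (hQ : ∀ X, S.concave X = 0 → S.convex X = 0 → 3 * S.sig X ≤ S.e X) :
    ∃ κ : M →+ ℝ, ∀ W, κ (S.convex W) ≤ κ (S.concave W) + (S.e W - 3 * S.sig W) := by
  have hz : sInf (S.vals 0) = 0 := by
    refine le_antisymm ?_ (le_csInf (S.vals_nonempty 0) fun x hx => S.vals_zero hQ hx)
    obtain ⟨D, d1, d2, d3, d4⟩ := S.cyl 0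
    refine csInf_le (S.vals_bdd hQ 0) ⟨D, ?_, ?_⟩
    · rw [d1, d2, zero_add]
    · simp [m, d3, d4]
  have hs : ∀ g h, sInf (S.vals (g + h)) ≤ sInf (S.vals g) + sInf (S.vals h) := by
    intro g h
    have h5 : sInf (S.vals (g + h)) - sInf (S.vals h) ≤ sInf (S.vals g) := by
      refine le_csInf (S.vals_nonempty g) fun x hx => ?_
      have h6 : sInf (S.vals (g + h)) - x ≤ sInf (S.vals h) := by
        refine le_csInf (S.vals_nonempty h) fun y hy => ?_
        have := csInf_le (S.vals_bdd hQ (g + h)) (S.vals_add hx hy)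
        linarith
      linarith
    linarith
  obtain ⟨φ, hφ⟩ := exists_additive_minorant (fun g => sInf (S.vals g)) hz hs
  refine ⟨φ.comp GrothendieckAddGroup.of, fun W => ?_⟩
  have h1 : φ (GrothendieckAddGroup.of (S.convex W) - GrothendieckAddGroup.of (S.concave W)) ≤
      (S.m W : ℝ) := by
    refine (hφ _).trans (csInf_le (S.vals_bdd hQ _) ⟨W, ?_, rfl⟩)
    rw [sub_add_cancel]
  rw [map_sub] at h1
  simp only [m] at h1
  push_cast at h1
  simp only [AddMonoidHom.comp_apply]
  linarith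

theorem main : List.TFAE
    [∀ X, S.concave X = 0 → S.convex X = 0 → 3 * S.sig X ≤ S.e X,
     ∃ κ : M → ℝ, ∀ W, κ (S.convex W) ≤ κ (S.concave W) + (S.e W - 3 * S.sig W),
     ∃ κ : M →+ ℝ, ∀ W, κ (S.convex W) ≤ κ (S.concave W) + (S.e W - 3 * S.sig W)] := by
  tfae_have 1 → 3 := S.exists_potential
  tfae_have 3 → 2 := fun ⟨κ, h⟩ => ⟨κ, h⟩
  tfae_have 2 → 1 := by
    rintro ⟨κ, h⟩ X h1 h2
    have := h X
    rw [h1, h2] at this
    have h3 : (0 : ℝ) ≤ (S.e X : ℝ) - 3 * S.sig X := by linarith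
    have h4 : (3 : ℝ) * S.sig X ≤ S.e X := by linarith
    exact_mod_cast h4
  tfae_finish

end SympCobordisms

end Pool.Agent.TH861.HB
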