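import Mathlib
import Pool.Agent.TH861.HB.Base

/-! Spin 4-manifolds bounded by homology 3-spheres, and homomorphisms on the group of homology spheres. -/

set_option autoImplicit false

namespace Pool.Agent.TH861.HB

/-- The part of 4-dimensional topology that is used. `Θ` stands for the abelian group, under connected sum,
of the oriented integral homology 3-spheres modulo the homology cobordisms whose fundamental group is
normally generated by the image of either end. `W` stands for the compact simply connected smooth spin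
4-manifolds with boundary an integral homology 3-sphere, `bd` for the class of the boundary, `b₂` for the
second Betti number and `sig` for the signature. -/
structure SpinFillings (Θ : Type*) [AddCommGroup Θ] where
  W : Type*
  bd : W → Θ
  b₂ : W → ℕ
  sig : W → ℤ
  /-- boundary connected sum -/
  sum : ∀ A B, ∃ D, bd D = bd A + bd B ∧ b₂ D = b₂ A + b₂ B ∧ sig D = sig A + sig B
  /-- reversal of the orientation -/
  rev : ∀ A, ∃ D, bd D = - bd A ∧ b₂ D = b₂ A ∧ sig D = - sig A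
  /-- every homology sphere bounds -/
  fill : ∀ θ, ∃ A, bd A = θ
  /-- the ball -/
  ball : ∃ A, bd A = 0 ∧ b₂ A = 0 ∧ sig A = 0

namespace SpinFillings

variable {Θ : Type*} [AddCommGroup Θ] (S : SpinFillings Θ) (c : ℝ)

theorem multiple (A : S.W) (h : S.bd A = 0) (B : S.W) (n : ℕ) :
    ∃ D, S.bd D = S.bd B ∧ S.b₂ D = n * S.b₂ A + S.b₂ B ∧ S.sig D = n * S.sig A + S.sig B := by
  induction n with
  | zero => exact ⟨B, rfl, by simp, by simp⟩
  | succ n ih =>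
    obtain ⟨D, h1, h2, h3⟩ := ih
    obtain ⟨D', k1, k2, k3⟩ := S.sum D A
    refine ⟨D', ?_, ?_, ?_⟩
    · rw [k1, h, add_zero, h1]
    · rw [k2, h2]; ring
    · rw [k3, h3]; push_cast; ring

def vals (θ : Θ) : Set ℝ := {x | ∃ A : S.W, S.bd A = θ ∧ x = S.b₂ A + c * S.sig A}

theorem vals_nonempty (θ : Θ) : (S.vals c θ).Nonempty := by
  obtain ⟨A, hA⟩ := S.fill θ
  exact ⟨_, A, hA, rfl⟩

theorem vals_add {g h : Θ} {x y : ℝ} (hx : x ∈ S.vals c g) (hy : y ∈ S.vals c h) :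
    x + y ∈ S.vals c (g + h) := by
  obtain ⟨A, hA, rfl⟩ := hx
  obtain ⟨B, hB, rfl⟩ := hy
  obtain ⟨D, d1, d2, d3⟩ := S.sum A B
  refine ⟨D, by rw [d1, hA, hB], ?_⟩
  rw [d2, d3]
  push_cast
  ring

theorem vals_zero (hc : 0 ≤ c) (hQ : ∀ A, S.bd A = 0 → c * |(S.sig A : ℝ)| ≤ S.b₂ A) {x : ℝ}
    (hx : x ∈ S.vals c 0) : 0 ≤ x := by
  obtain ⟨A, hA, rfl⟩ := hx
  have h1 := hQ A hA
  have h2 := neg_abs_le (S.sig A : ℝ)
  nlinarith

theorem vals_bdd (hc : 0 ≤ c) (hQ : ∀ A, S.bd A = 0 → c * |(S.sig A : ℝ)| ≤ S.b₂ A) (θ : Θ) :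
    BddBelow (S.vals c θ) := by
  obtain ⟨y, hy⟩ := S.vals_nonempty c (-θ)
  refine ⟨-y, fun x hx => ?_⟩
  have := S.vals_add c hx hy
  rw [add_neg_cancel] at this
  have := S.vals_zero c hc hQ this
  linarith

theorem exists_hom (hc : 0 ≤ c) (hQ : ∀ A, S.bd A = 0 → c * |(S.sig A : ℝ)| ≤ S.b₂ A) :
    ∃ φ : Θ →+ ℝ, ∀ A, |c * S.sig A - φ (S.bd A)| ≤ S.b₂ A := by
  have hz : sInf (S.vals c 0) = 0 := by
    refine le_antisymm ?_ (le_csInf (S.vals_nonempty c 0) fun x hx => S.vals_zero c hc hQ hx)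
    obtain ⟨D, d1, d2, d3⟩ := S.ball
    exact csInf_le (S.vals_bdd c hc hQ 0) ⟨D, d1, by simp [d2, d3]⟩
  have hs : ∀ g h, sInf (S.vals c (g + h)) ≤ sInf (S.vals c g) + sInf (S.vals c h) := by
    intro g h
    have h5 : sInf (S.vals c (g + h)) - sInf (S.vals c h) ≤ sInf (S.vals c g) := by
      refine le_csInf (S.vals_nonempty c g) fun x hx => ?_
      have h6 : sInf (S.vals c (g + h)) - x ≤ sInf (S.vals c h) := by
        refine le_csInf (S.vals_nonempty c h) fun y hy => ?_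
        have := csInf_le (S.vals_bdd c hc hQ (g + h)) (S.vals_add c hx hy)
        linarith
      linarith
    linarith
  obtain ⟨φ, hφ⟩ := exists_additive_minorant (fun g => sInf (S.vals c g)) hz hs
  refine ⟨φ, fun A => ?_⟩
  have h1 : φ (S.bd A) ≤ S.b₂ A + c * S.sig A :=
    (hφ _).trans (csInf_le (S.vals_bdd c hc hQ _) ⟨A, rfl, rfl⟩)
  obtain ⟨D, d1, d2, d3⟩ := S.rev A
  have h2 : φ (S.bd D) ≤ S.b₂ D + c * S.sig D :=
    (hφ _).trans (csInf_le (S.vals_bdd c hc hQ _) ⟨D, rfl, rfl⟩)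
  rw [d1, d2, d3, map_neg] at h2
  push_cast at h2
  rw [abs_le]
  constructor <;> linarith

/-- the value on boundaries that split a manifold on the line b₂ = -c sig is forced -/
theorem forced {φ : Θ →+ ℝ} (h : ∀ A, |c * S.sig A - φ (S.bd A)| ≤ S.b₂ A) {A B : S.W}
    (hAB : S.bd B = - S.bd A) (ht : (S.b₂ A : ℝ) + S.b₂ B = - c * (S.sig A + S.sig B)) :
    φ (S.bd A) = S.b₂ A + c * S.sig A := by
  have h1 := abs_le.1 (h A)
  have h2 := abs_le.1 (h B)
  rw [hAB, map_neg] at h2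
  linarith [h1.1, h1.2, h2.1, h2.2]

theorem main (hc : 0 ≤ c) : List.TFAE
    [∀ A, S.bd A = 0 → c * |(S.sig A : ℝ)| ≤ S.b₂ A,
     ∃ θ, ∀ ε : ℝ, 0 < ε → ∃ C : ℝ, ∀ A, S.bd A = θ → c * |(S.sig A : ℝ)| ≤ (1 + ε) * S.b₂ A + C,
     ∃ f : Θ → ℝ, ∀ A, c * |(S.sig A : ℝ)| ≤ S.b₂ A + f (S.bd A),
     ∃ φ : Θ →+ ℝ, (∀ A, |c * S.sig A - φ (S.bd A)| ≤ S.b₂ A) ∧
       ∀ A B, S.bd B = - S.bd A → (S.b₂ A : ℝ) + S.b₂ B = - c * (S.sig A + S.sig B) →
         φ (S.bd A) = S.b₂ A + c * S.sig A] := by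
  tfae_have 1 → 4 := by
    intro hQ
    obtain ⟨φ, hφ⟩ := S.exists_hom c hc hQ
    exact ⟨φ, hφ, fun A B h1 h2 => S.forced c hφ h1 h2⟩
  tfae_have 4 → 3 := by
    rintro ⟨φ, hφ, -⟩
    refine ⟨fun θ => |φ θ|, fun A => ?_⟩
    have h1 := hφ A
    have h2 : c * |(S.sig A : ℝ)| = |c * S.sig A| := by rw [abs_mul, abs_of_nonneg hc]
    have h3 := abs_sub_abs_le_abs_sub (c * S.sig A) (φ (S.bd A))
    simp only
    linarith
  tfae_have 3 → 2 := by
    rintro ⟨f, hf⟩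
    refine ⟨0, fun ε hε => ⟨f 0, fun A hA => ?_⟩⟩
    have h1 := hf A
    rw [hA] at h1
    have h2 : (0 : ℝ) ≤ S.b₂ A := by positivity
    nlinarith
  tfae_have 2 → 1 := by
    rintro ⟨θ, hθ⟩ A hA
    obtain ⟨B, hB⟩ := S.fill θ
    have key : ∀ ε : ℝ, 0 < ε → c * |(S.sig A : ℝ)| ≤ (1 + ε) * S.b₂ A := by
      intro ε hε
      obtain ⟨C, hC⟩ := hθ ε hε
      by_contra hlt
      push Not at hlt
      set d : ℝ := c * |(S.sig A : ℝ)| - (1 + ε) * S.b₂ A with hd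
      have hd0 : 0 < d := by rw [hd]; linarith
      obtain ⟨n, hn⟩ := exists_nat_gt
        (((1 + ε) * S.b₂ B + C + c * |(S.sig B : ℝ)|) / d)
      rw [div_lt_iff₀ hd0] at hn
      obtain ⟨D, d1, d2, d3⟩ := S.multiple A hA B n
      have h1 := hC D (d1.trans hB)
      rw [d2, d3] at h1
      push_cast at h1
      have h2 : (n : ℝ) * |(S.sig A : ℝ)| - |(S.sig B : ℝ)| ≤
          |(n : ℝ) * S.sig A + S.sig B| := by
        have := abs_sub_abs_le_abs_sub ((n : ℝ) * S.sig A) (-(S.sig B : ℝ))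
        rw [abs_neg, abs_mul, sub_neg_eq_add, Nat.abs_cast] at this
        exact this
      have h3 := mul_le_mul_of_nonneg_left h2 hc
      have h4 : (n : ℝ) * d = n * (c * |(S.sig A : ℝ)|) - n * ((1 + ε) * S.b₂ A) := by
        rw [hd]; ring
      nlinarith
    refine le_of_forall_pos_le_add fun δ hδ => ?_
    have h1 := key (δ / (S.b₂ A + 1)) (by positivity)
    have h2 : δ / ((S.b₂ A : ℝ) + 1) * S.b₂ A ≤ δ := by
      rw [div_mul_eq_mul_div, div_le_iff₀ (by positivity)]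
      nlinarith [(Nat.cast_nonneg (S.b₂ A) : (0 : ℝ) ≤ S.b₂ A)]
    linarith
  tfae_finish

end SpinFillings

end Pool.Agent.TH861.HB
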